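import Mathlib
import Pool.Agent.Work.MP_446a37_lc.NC.Main

/-!
# Q1 and the bounds for the reset words of all synchronizing automata (MP_446a37_lc)

`act`, `IsReset`, `Extremal`, `push` and `Irreducible` are defined in `Pool/Agent/Work/MP_446a37_lc/Aut.lean`, `Threshold` in
`NC/Gad.lean`, `IsStrong` in `NC/Up.lean`, `AllIrreducible` (the statement of Q1) and `StrongAt` in `NC/Main.lean`.
-/

namespace Pool.Agent.Results.MP_446a37_lc.NearCerny

open Pool.Agent.Work.MP_446a37_lc

/-- (1) If Q1 holds, then every extremal automaton with at least 3 states is strongly connected. (2) If every extremal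
automaton with at least 3 states is strongly connected, then every synchronizing automaton with `m ≤ s ^ 2` states has a
reset word of length at most `(m + 2 * s) ^ 2`. (3) Exactly: every extremal automaton with `n` states is strongly connected
if and only if no strongly connected automaton with `m < n` states has its reset threshold in the interval from
`(n - 1) ^ 2 - (n - m) * (n - m + 1) / 2` to `(n - 1) ^ 2`. (4) This is the case if the strongly connected automata with
fewer than `n` states satisfy the Cerny conjecture. -/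
theorem result :
    (AllIrreducible → ∀ n, 3 ≤ n → StrongAt n) ∧
    ((∀ n, 3 ≤ n → StrongAt n) → ∀ (Q A : Type) [Fintype Q] [Finite A] (δ : Q → A → Q),
      (∃ u, IsReset δ u) → ∀ s : ℕ, Fintype.card Q ≤ s ^ 2 →
        ∃ u, IsReset δ u ∧ u.length ≤ (Fintype.card Q + 2 * s) ^ 2) ∧
    (∀ n, 2 ≤ n → (StrongAt n ↔
      ∀ (Q A : Type) [Fintype Q] [Finite A] (δ : Q → A → Q) (t : ℕ), IsStrong δ → Threshold δ t →
        1 ≤ Fintype.card Q → Fintype.card Q < n →
        t + (n - Fintype.card Q) * (n - Fintype.card Q + 1) / 2 < (n - 1) ^ 2 ∨ (n - 1) ^ 2 < t)) ∧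
    ∀ n, 3 ≤ n →
      (∀ (Q A : Type) [Fintype Q] [Finite A] (δ : Q → A → Q), IsStrong δ → Fintype.card Q < n →
        (∃ u, IsReset δ u) → ∃ u, IsReset δ u ∧ u.length ≤ (Fintype.card Q - 1) ^ 2) → StrongAt n :=
  ⟨fun h _ hn => strongAt_of_irreducible h hn, near_cerny, fun _ hn => strongAt_iff hn,
    fun _ hn h => strongAt_of_cerny hn h⟩

end Pool.Agent.Results.MP_446a37_lc.NearCerny
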