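import Mathlib
import Pool.Agent.Work.MP_446a37_lc.OC.Fin

/-!
# Extremal one-cluster automata are irreducible (MP_446a37_lc, Q1 for one-cluster automata)

`act`, `IsReset`, `Extremal`, `push` and `Irreducible` are defined in
`Pool/Agent/Work/MP_446a37_lc/Aut.lean`.
-/

namespace Pool.Agent.Results.MP_446a37_lc.OneCluster

open Pool.Agent.Work.MP_446a37_lc

/-- Let some power of the letter `a` send any given state to the state `c` (the graph of `a` has
exactly one cycle). If the automaton is synchronizing and has no reset word of length less than
`(n - 1) ^ 2`, then it is extremal and irreducible over the complex numbers. -/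
theorem result {Q A : Type} [Fintype Q] [DecidableEq Q] (δ : Q → A → Q) (a : A) (c : Q)
    (ha : ∀ q : Q, ∃ k : ℕ, act δ q (List.replicate k a) = c) (hsync : ∃ w, IsReset δ w)
    (hno : ∀ u, IsReset δ u → (Fintype.card Q - 1) ^ 2 ≤ u.length) :
    Extremal δ ∧ Irreducible δ :=
  OC.one_cluster ha hsync hno

end Pool.Agent.Results.MP_446a37_lc.OneCluster
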