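import Mathlib
import Pool.Agent.Work.MP_446a37_lc.Orient4
import Pool.Agent.Work.MP_446a37_lc.Prime

/-!
# Extremal orientable automata are irreducible (MP_446a37_lc, Q1 for orientable automata)

`act`, `IsReset`, `Extremal`, `push` and `Irreducible` are defined in
`Pool/Agent/Work/MP_446a37_lc/Aut.lean`, `Orientable` in
`Pool/Agent/Work/MP_446a37_lc/Orient3.lean`.
-/

namespace Pool.Agent.Results.MP_446a37_lc.Orientable

open Pool.Agent.Work.MP_446a37_lc Finset

theorem small_irreducible {Q A : Type} [Fintype Q] [DecidableEq Q] (δ : Q → A → Q)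
    (h : Fintype.card Q ≤ 1) : Irreducible δ := by
  intro W hW0 _
  left
  rw [eq_bot_iff]
  intro v hv
  rw [Submodule.mem_bot]
  ext q
  have hs : Subsingleton Q := Fintype.card_le_one_iff_subsingleton.1 h
  have h1 := hW0 v hv
  have h2 : ∑ r, v r = v q :=
    Finset.sum_eq_single q (fun r _ hr => absurd (Subsingleton.elim r q) hr)
      (fun h => absurd (Finset.mem_univ q) h)
  rw [h2] at h1
  exact h1

/-- Every extremal orientable automaton is irreducible over the complex numbers; with at least
four states it is the Cerny automaton (every letter is the identity, the rotation or the merging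
of one state with the next, and the last two occur). -/
theorem result {Q A : Type} [Fintype Q] [DecidableEq Q] (δ : Q → A → Q) (hx : Extremal δ)
    (ho : Orientable δ) :
    Irreducible δ ∧
    (4 ≤ Fintype.card Q →
      ∃ e : Q ≃ ZMod (Fintype.card Q),
        (∀ c, (∀ q, e (δ q c) = e q) ∨ (∀ q, e (δ q c) = e q + 1) ∨
          (∀ q, e (δ q c) = if e q = 0 then 1 else e q)) ∧
        (∃ c, ∀ q, e (δ q c) = e q + 1) ∧
        ∃ c, ∀ q, e (δ q c) = if e q = 0 then 1 else e q) := by
  refine ⟨?_, fun h4 => orientable_cerny δ h4 hx ho⟩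
  rcases le_or_gt (Fintype.card Q) 1 with h1 | h1
  · exact small_irreducible δ h1
  · rcases eq_or_ne (Fintype.card Q) 2 with h2 | h2
    · exact two_states h2 δ
    · exact orientable_irreducible δ (by omega) hx ho

end Pool.Agent.Results.MP_446a37_lc.Orientable
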