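import Mathlib
import Pool.Agent.Work.MP_446a37_lc.Prime

/-!
# Automata with a prime number of states (MP_446a37_lc)

`act`, `IsReset`, `Extremal`, `push` and `Irreducible` are defined in
`Pool/Agent/Work/MP_446a37_lc/Aut.lean`.
-/

namespace Pool.Agent.Results.MP_446a37_lc.PrimeDegree

open Pool.Agent.Work.MP_446a37_lc

/-- The number of states is prime and the words that act as permutations are transitive. If the
automaton is extremal, or merely synchronizing without a reset word of length one, then it is
irreducible over the complex numbers. -/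
theorem result {Q A : Type} [Fintype Q] [DecidableEq Q] (δ : Q → A → Q)
    (hp : (Fintype.card Q).Prime)
    (htr : ∀ x y : Q, ∃ u : List A, (Function.Injective fun q => act δ q u) ∧ act δ x u = y) :
    (Extremal δ → Irreducible δ) ∧
    ((∃ u : List A, IsReset δ u) → (∀ c : A, ¬ IsReset δ [c]) → Irreducible δ) := by
  refine ⟨fun hx => ?_, fun hsync hth => prime_main δ hp htr hsync (Or.inr hth)⟩
  refine prime_main δ hp htr ⟨hx.1.choose, hx.1.choose_spec.1⟩ ?_
  rcases eq_or_ne (Fintype.card Q) 2 with h2 | h2
  · exact Or.inl h2
  · right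
    intro c hc
    have h3 : 3 ≤ Fintype.card Q := by
      have := hp.two_le
      omega
    have h4 := hx.2 [c] hc
    rw [List.length_singleton] at h4
    obtain ⟨k, hk⟩ : ∃ k, Fintype.card Q = k + 3 := ⟨Fintype.card Q - 3, by omega⟩
    rw [hk, show k + 3 - 1 = k + 2 by omega] at h4
    nlinarith

end Pool.Agent.Results.MP_446a37_lc.PrimeDegree
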